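import Mathlib

/-!
# Convexity of level curves of an exterior conformal map (Schwarz-type maximum principle)

`K` compact convex, `φ : Kᶜ → {|w| > 1}`, `ψ` its inverse, `χ` analytic in `|w| > 1`, tending to `K`
at the circle, with growth at most that of `ψ` at infinity. Then
`Re ((ψ w - χ w) / (w ψ' w)) ≥ 0`.
-/

open Filter Metric Set Topology

namespace CRZLevel

/-- `N z = ‖φ z‖` off `K`, `1` on `K`. -/
noncomputable def N (K : Set ℂ) (φ : ℂ → ℂ) (z : ℂ) : ℝ := by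
  classical exact if z ∈ K then 1 else ‖φ z‖

theorem N_of_mem {K : Set ℂ} {φ : ℂ → ℂ} {z : ℂ} (h : z ∈ K) : N K φ z = 1 := by
  simp [N, h]

theorem N_of_notMem {K : Set ℂ} {φ : ℂ → ℂ} {z : ℂ} (h : z ∉ K) : N K φ z = ‖φ z‖ := by
  simp [N, h]

theorem N_continuous {K : Set ℂ} (hKc : IsClosed K) {φ : ℂ → ℂ}
    (hφd : DifferentiableOn ℂ φ Kᶜ)
    (hφ1 : ∀ z, z ∉ K → 1 < ‖φ z‖)
    (hφb : ∀ ε > 0, ∃ δ > 0, ∀ z, z ∉ K → infDist z K < δ → ‖φ z‖ < 1 + ε) :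
    Continuous (N K φ) := by
  rw [continuous_iff_continuousAt]
  intro z
  by_cases hz : z ∈ K
  · rw [Metric.continuousAt_iff]
    intro ε hε
    obtain ⟨δ, hδ, h⟩ := hφb ε hε
    refine ⟨δ, hδ, fun {x} hx => ?_⟩
    rw [N_of_mem hz]
    by_cases hxK : x ∈ K
    · rw [N_of_mem hxK]; simpa using hε
    · rw [N_of_notMem hxK]
      have h1 : infDist x K < δ := lt_of_le_of_lt (infDist_le_dist_of_mem hz) hx
      have h2 := h x hxK h1
      have h3 := hφ1 x hxK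
      rw [Real.dist_eq, abs_of_pos (by linarith)]
      linarith
  · have hopen : Kᶜ ∈ 𝓝 z := hKc.isOpen_compl.mem_nhds hz
    have hc : ContinuousAt (fun x => ‖φ x‖) z :=
      ((hφd.differentiableAt hopen).continuousAt).norm
    refine hc.congr ?_
    filter_upwards [hopen] with x hx
    exact (N_of_notMem hx).symm

/-- The maximum principle. -/
theorem N_le {K : Set ℂ} (hKc : IsClosed K) (hKconv : Convex ℝ K) (hKne : K.Nonempty)
    {φ ψ χ : ℂ → ℂ} {L : ℝ} (hL : 0 < L)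
    (hψd : DifferentiableOn ℂ ψ {w | 1 < ‖w‖})
    (hφd : DifferentiableOn ℂ φ Kᶜ)
    (hφ1 : ∀ z, z ∉ K → 1 < ‖φ z‖)
    (hφb : ∀ ε > 0, ∃ δ > 0, ∀ z, z ∉ K → infDist z K < δ → ‖φ z‖ < 1 + ε)
    (hψb : ∀ ε > 0, ∃ δ > 0, ∀ w, 1 < ‖w‖ → ‖w‖ < 1 + δ → infDist (ψ w) K < ε)
    (hφi : ∀ ε > 0, ∃ C : ℝ, ∀ z, z ∉ K → ‖φ z‖ ≤ (1 / L + ε) * ‖z‖ + C)
    (hψi : ∀ ε > 0, ∃ C : ℝ, ∀ w, 1 < ‖w‖ → ‖ψ w‖ ≤ (L + ε) * ‖w‖ + C)
    (hχd : DifferentiableOn ℂ χ {w | 1 < ‖w‖})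
    (hχb : ∀ ε > 0, ∃ δ > 0, ∀ w, 1 < ‖w‖ → ‖w‖ < 1 + δ → infDist (χ w) K < ε)
    (hχi : ∀ ε > 0, ∃ C : ℝ, ∀ w, 1 < ‖w‖ → ‖χ w‖ ≤ (L + ε) * ‖w‖ + C)
    {t : ℝ} (ht0 : 0 ≤ t) (ht1 : t ≤ 1) {w : ℂ} (hw : 1 < ‖w‖) :
    N K φ ((1 - t) • ψ w + t • χ w) ≤ ‖w‖ := by
  classical
  by_contra hcon
  push Not at hcon
  have hEopen : IsOpen {w : ℂ | 1 < ‖w‖} := isOpen_lt continuous_const continuous_norm
  set Z : ℂ → ℂ := fun w => (1 - t) • ψ w + t • χ w with hZ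
  have hZd : DifferentiableOn ℂ Z {w | 1 < ‖w‖} :=
    (hψd.const_smul (1 - t)).add (hχd.const_smul t)
  set q : ℂ → ℝ := fun w => N K φ (Z w) / ‖w‖ with hq
  have hwpos : 0 < ‖w‖ := by linarith
  set m : ℝ := q w with hm
  have hm1 : 1 < m := by
    rw [hm, hq]; simp only; rw [lt_div_iff₀ hwpos]; linarith
  have hNc := N_continuous hKc hφd hφ1 hφb
  -- continuity of q
  have hqc : ContinuousOn q {w | 1 < ‖w‖} := by
    refine ContinuousOn.div (hNc.comp_continuousOn hZd.continuousOn) continuous_norm.continuousOn ?_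
    intro x hx
    have : (1:ℝ) < ‖x‖ := hx
    linarith
  -- near the circle
  have hnear : ∃ δ > 0, ∀ x : ℂ, 1 < ‖x‖ → ‖x‖ < 1 + δ → q x < m := by
    obtain ⟨δ₁, hδ₁, h1⟩ := hφb (m - 1) (by linarith)
    obtain ⟨δ₂, hδ₂, h2⟩ := hψb δ₁ hδ₁
    obtain ⟨δ₃, hδ₃, h3⟩ := hχb δ₁ hδ₁
    refine ⟨min δ₂ δ₃, lt_min hδ₂ hδ₃, fun x hx1 hx2 => ?_⟩
    have hxp : 0 < ‖x‖ := by linarith
    have ha := h2 x hx1 (lt_of_lt_of_le hx2 (by linarith [min_le_left δ₂ δ₃]))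
    have hb := h3 x hx1 (lt_of_lt_of_le hx2 (by linarith [min_le_right δ₂ δ₃]))
    have hZK : infDist (Z x) K < δ₁ := by
      obtain ⟨y₁, hy₁, hd₁⟩ := (infDist_lt_iff hKne).1 ha
      obtain ⟨y₂, hy₂, hd₂⟩ := (infDist_lt_iff hKne).1 hb
      rw [infDist_lt_iff hKne]
      refine ⟨(1 - t) • y₁ + t • y₂, hKconv hy₁ hy₂ (by linarith) ht0 (by ring), ?_⟩
      rw [dist_eq_norm] at hd₁ hd₂ ⊢
      have e1 : Z x - ((1 - t) • y₁ + t • y₂) = (1 - t) • (ψ x - y₁) + t • (χ x - y₂) := by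
        simp only [hZ, smul_sub]; abel
      rw [e1]
      calc ‖(1 - t) • (ψ x - y₁) + t • (χ x - y₂)‖
          ≤ ‖(1 - t) • (ψ x - y₁)‖ + ‖t • (χ x - y₂)‖ := norm_add_le _ _
        _ = (1 - t) * ‖ψ x - y₁‖ + t * ‖χ x - y₂‖ := by
            rw [norm_smul, norm_smul, Real.norm_of_nonneg (by linarith), Real.norm_of_nonneg ht0]
        _ < δ₁ := by
            rcases eq_or_lt_of_le ht0 with h0 | h0
            · rw [← h0]; simpa using hd₁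
            · nlinarith
    have hN : N K φ (Z x) < m := by
      by_cases hK : Z x ∈ K
      · rw [N_of_mem hK]; exact hm1
      · rw [N_of_notMem hK]
        have := h1 _ hK hZK
        linarith
    show N K φ (Z x) / ‖x‖ < m
    rw [div_lt_iff₀ hxp]
    nlinarith
  -- near infinity
  have hfar : ∃ R : ℝ, ∀ x : ℂ, 1 < ‖x‖ → R < ‖x‖ → q x < m := by
    -- choose ε with (1/L+ε)(L+ε) < m
    obtain ⟨ε, hε, hεm⟩ : ∃ ε > 0, (1 / L + ε) * (L + ε) < m := by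
      have hcont : ContinuousAt (fun ε : ℝ => (1 / L + ε) * (L + ε)) 0 := by fun_prop
      have h0 : (fun ε : ℝ => (1 / L + ε) * (L + ε)) 0 < m := by
        simp only [add_zero]
        rw [one_div, inv_mul_cancel₀ hL.ne']
        exact hm1
      have hev := hcont.eventually (gt_mem_nhds h0)
      rw [Metric.eventually_nhds_iff] at hev
      obtain ⟨r, hr, h⟩ := hev
      refine ⟨r / 2, by positivity, h ?_⟩
      rw [Real.dist_eq, sub_zero, abs_of_pos (half_pos hr)]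
      linarith
    obtain ⟨C₁, h1⟩ := hφi ε hε
    obtain ⟨C₂, h2⟩ := hψi ε hε
    obtain ⟨C₃, h3⟩ := hχi ε hε
    set D : ℝ := (1 / L + ε) * (|C₂| + |C₃|) + |C₁| + 1 with hD
    have hLe : 0 < 1 / L + ε := by positivity
    refine ⟨D / (m - (1 / L + ε) * (L + ε)), fun x hx1 hx2 => ?_⟩
    have hxp : 0 < ‖x‖ := by linarith
    have hgap : 0 < m - (1 / L + ε) * (L + ε) := by linarith
    rw [div_lt_iff₀ hgap] at hx2
    have hZx : ‖Z x‖ ≤ (L + ε) * ‖x‖ + (|C₂| + |C₃|) := by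
      calc ‖Z x‖ ≤ ‖(1 - t) • ψ x‖ + ‖t • χ x‖ := norm_add_le _ _
        _ = (1 - t) * ‖ψ x‖ + t * ‖χ x‖ := by
            rw [norm_smul, norm_smul, Real.norm_of_nonneg (by linarith), Real.norm_of_nonneg ht0]
        _ ≤ (1 - t) * ((L + ε) * ‖x‖ + |C₂|) + t * ((L + ε) * ‖x‖ + |C₃|) := by
            have a := h2 x hx1
            have b := h3 x hx1
            have c := le_abs_self C₂
            have d := le_abs_self C₃
            gcongr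
            · linarith
            · linarith
        _ ≤ _ := by nlinarith [abs_nonneg C₂, abs_nonneg C₃]
    show N K φ (Z x) / ‖x‖ < m
    rw [div_lt_iff₀ hxp]
    by_cases hK : Z x ∈ K
    · rw [N_of_mem hK]; nlinarith
    · rw [N_of_notMem hK]
      calc ‖φ (Z x)‖ ≤ (1 / L + ε) * ‖Z x‖ + C₁ := h1 _ hK
        _ ≤ (1 / L + ε) * ((L + ε) * ‖x‖ + (|C₂| + |C₃|)) + |C₁| := by
            have := le_abs_self C₁
            gcongr
        _ < m * ‖x‖ := by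
            have : D < ‖x‖ * (m - (1 / L + ε) * (L + ε)) := hx2
            nlinarith
  obtain ⟨δ, hδ, hnear⟩ := hnear
  obtain ⟨R, hfar⟩ := hfar
  -- compact annulus
  have hwδ : 1 + δ ≤ ‖w‖ := by
    by_contra h
    push Not at h
    exact lt_irrefl _ (hnear w hw h)
  have hwR : ‖w‖ ≤ R := by
    by_contra h
    push Not at h
    exact lt_irrefl _ (hfar w hw h)
  set An : Set ℂ := {x | 1 + δ ≤ ‖x‖ ∧ ‖x‖ ≤ R} with hAn
  have hAnc : IsCompact An := by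
    have hsub : An ⊆ closedBall 0 R := fun x hx => by simpa using hx.2
    refine (isCompact_closedBall (0:ℂ) R).of_isClosed_subset ?_ hsub
    exact (isClosed_le continuous_const continuous_norm).inter
      (isClosed_le continuous_norm continuous_const)
  have hAnE : An ⊆ {w | 1 < ‖w‖} := fun x hx => by
    have := hx.1
    show 1 < ‖x‖
    linarith
  obtain ⟨w₀, hw₀, hmax⟩ := hAnc.exists_isMaxOn ⟨w, hwδ, hwR⟩ (hqc.mono hAnE)
  set M : ℝ := q w₀ with hM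
  have hmM : m ≤ M := hmax ⟨hwδ, hwR⟩
  have hglob : ∀ x : ℂ, 1 < ‖x‖ → q x ≤ M := by
    intro x hx
    by_cases h1 : ‖x‖ < 1 + δ
    · exact ((hnear x hx h1).trans_le hmM).le
    by_cases h2 : R < ‖x‖
    · exact ((hfar x hx h2).trans_le hmM).le
    push Not at h1 h2
    exact hmax ⟨h1, h2⟩
  -- the set of maximizers is compact; take the one of the smallest norm
  have hScomp : IsCompact (An ∩ q ⁻¹' {M}) := by
    refine hAnc.of_isClosed_subset ?_ inter_subset_left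
    exact (hqc.mono hAnE).preimage_isClosed_of_isClosed hAnc.isClosed isClosed_singleton
  obtain ⟨w₁, ⟨hw₁A, hw₁M⟩, hmin⟩ :=
    hScomp.exists_isMinOn ⟨w₀, hw₀, rfl⟩ continuous_norm.continuousOn
  have hw₁M' : q w₁ = M := hw₁M
  have hw₁1 : 1 < ‖w₁‖ := hAnE hw₁A
  have hw₁p : 0 < ‖w₁‖ := by linarith
  have hM1 : 1 < M := hm1.trans_le hmM
  have hNw₁ : N K φ (Z w₁) = M * ‖w₁‖ := by
    have : N K φ (Z w₁) / ‖w₁‖ = M := hw₁M'
    rwa [div_eq_iff hw₁p.ne'] at this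
  have hZw₁ : Z w₁ ∉ K := by
    intro h
    rw [N_of_mem h] at hNw₁
    nlinarith
  -- local analytic function
  have hZat : ContinuousAt Z w₁ :=
    (hZd.differentiableAt (hEopen.mem_nhds hw₁1)).continuousAt
  have hev1 : ∀ᶠ x in 𝓝 w₁, 1 < ‖x‖ := hEopen.mem_nhds hw₁1
  have hev2 : ∀ᶠ x in 𝓝 w₁, Z x ∉ K := hZat.eventually (hKc.isOpen_compl.mem_nhds hZw₁)
  set F : ℂ → ℂ := fun x => φ (Z x) / x with hF
  have hFq : ∀ᶠ x in 𝓝 w₁, ‖F x‖ = q x := by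
    filter_upwards [hev1, hev2] with x hx1 hx2
    rw [hF, hq]
    simp only
    rw [norm_div, N_of_notMem hx2]
  have hFd : ∀ᶠ x in 𝓝 w₁, DifferentiableAt ℂ F x := by
    filter_upwards [hev1, hev2] with x hx1 hx2
    have hx0 : x ≠ 0 := by
      intro h; rw [h, norm_zero] at hx1; linarith
    have a : DifferentiableAt ℂ φ (Z x) := hφd.differentiableAt (hKc.isOpen_compl.mem_nhds hx2)
    have b : DifferentiableAt ℂ Z x := hZd.differentiableAt (hEopen.mem_nhds hx1)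
    exact (a.comp x b).div differentiableAt_id hx0
  have hlm : IsLocalMax (norm ∘ F) w₁ := by
    have h0 : ‖F w₁‖ = M := by rw [hFq.self_of_nhds, hw₁M']
    filter_upwards [hFq, hev1] with x hx hx1
    show ‖F x‖ ≤ ‖F w₁‖
    rw [hx, h0]
    exact hglob x hx1
  have hconst := Complex.norm_eventually_eq_of_isLocalMax hFd hlm
  -- a nearby point of smaller norm is again a maximizer: contradiction
  have hconst' : ∀ᶠ x in 𝓝 w₁, q x = M := by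
    filter_upwards [hconst, hFq] with x hx hx2
    rw [← hx2, hx, hFq.self_of_nhds, hw₁M']
  have htend : Tendsto (fun s : ℝ => (s : ℂ) * w₁) (𝓝[<] 1) (𝓝 w₁) := by
    have : Tendsto (fun s : ℝ => (s : ℂ) * w₁) (𝓝 1) (𝓝 (((1:ℝ) : ℂ) * w₁)) := by
      apply Continuous.tendsto; fun_prop
    simp only [Complex.ofReal_one, one_mul] at this
    exact this.mono_left nhdsWithin_le_nhds
  have hev3 := htend.eventually hconst'
  have hev4 := htend.eventually hev1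
  have hev5 : ∀ᶠ s : ℝ in 𝓝[<] 1, 0 < s :=
    (lt_mem_nhds (show (0:ℝ) < 1 by norm_num)).filter_mono nhdsWithin_le_nhds
  have hev6 : ∀ᶠ s : ℝ in 𝓝[<] 1, s < 1 := self_mem_nhdsWithin
  obtain ⟨s, h3, h4, h5, h6⟩ := (hev3.and (hev4.and (hev5.and hev6))).exists
  have hsw : ‖(s : ℂ) * w₁‖ = s * ‖w₁‖ := by
    rw [norm_mul, Complex.norm_real, Real.norm_of_nonneg h5.le]
  have hlt : ‖(s : ℂ) * w₁‖ < ‖w₁‖ := by rw [hsw]; nlinarith
  have hA : (s : ℂ) * w₁ ∈ An := by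
    refine ⟨?_, hlt.le.trans hw₁A.2⟩
    by_contra h
    push Not at h
    have := hnear _ h4 h
    rw [h3] at this
    linarith
  have := hmin (show (s : ℂ) * w₁ ∈ An ∩ q ⁻¹' {M} from ⟨hA, h3⟩)
  have h' : ‖w₁‖ ≤ ‖(s : ℂ) * w₁‖ := this
  linarith

/-- **Key inequality.** `Re ((ψ w - χ w) / (w ψ' w)) ≥ 0`. -/
theorem re_nonneg {K : Set ℂ} (hKc : IsClosed K) (hKconv : Convex ℝ K) (hKne : K.Nonempty)
    {φ ψ χ : ℂ → ℂ} {L : ℝ} (hL : 0 < L)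
    (hψd : DifferentiableOn ℂ ψ {w | 1 < ‖w‖})
    (hφd : DifferentiableOn ℂ φ Kᶜ)
    (hψK : ∀ w, 1 < ‖w‖ → ψ w ∉ K)
    (hφψ : ∀ w, 1 < ‖w‖ → φ (ψ w) = w)
    (hφ1 : ∀ z, z ∉ K → 1 < ‖φ z‖)
    (hφb : ∀ ε > 0, ∃ δ > 0, ∀ z, z ∉ K → infDist z K < δ → ‖φ z‖ < 1 + ε)
    (hψb : ∀ ε > 0, ∃ δ > 0, ∀ w, 1 < ‖w‖ → ‖w‖ < 1 + δ → infDist (ψ w) K < ε)
    (hφi : ∀ ε > 0, ∃ C : ℝ, ∀ z, z ∉ K → ‖φ z‖ ≤ (1 / L + ε) * ‖z‖ + C)
    (hψi : ∀ ε > 0, ∃ C : ℝ, ∀ w, 1 < ‖w‖ → ‖ψ w‖ ≤ (L + ε) * ‖w‖ + C)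
    (hχd : DifferentiableOn ℂ χ {w | 1 < ‖w‖})
    (hχb : ∀ ε > 0, ∃ δ > 0, ∀ w, 1 < ‖w‖ → ‖w‖ < 1 + δ → infDist (χ w) K < ε)
    (hχi : ∀ ε > 0, ∃ C : ℝ, ∀ w, 1 < ‖w‖ → ‖χ w‖ ≤ (L + ε) * ‖w‖ + C)
    {w : ℂ} (hw : 1 < ‖w‖) :
    0 ≤ ((ψ w - χ w) / (w * deriv ψ w)).re := by
  have hEopen : IsOpen {w : ℂ | 1 < ‖w‖} := isOpen_lt continuous_const continuous_norm
  have hw0 : w ≠ 0 := by intro h; rw [h, norm_zero] at hw; linarith
  have hψat : HasDerivAt ψ (deriv ψ w) w :=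
    (hψd.differentiableAt (hEopen.mem_nhds hw)).hasDerivAt
  have hφat : HasDerivAt φ (deriv φ (ψ w)) (ψ w) :=
    (hφd.differentiableAt (hKc.isOpen_compl.mem_nhds (hψK w hw))).hasDerivAt
  -- chain rule
  have hchain : deriv φ (ψ w) * deriv ψ w = 1 := by
    have h1 : HasDerivAt (φ ∘ ψ) (deriv φ (ψ w) * deriv ψ w) w := hφat.comp w hψat
    have h2 : HasDerivAt (φ ∘ ψ) 1 w := by
      refine (hasDerivAt_id w).congr_of_eventuallyEq ?_
      filter_upwards [hEopen.mem_nhds hw] with x hx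
      exact hφψ x hx
    exact h1.unique h2
  have hψ'0 : deriv ψ w ≠ 0 := right_ne_zero_of_mul_eq_one hchain
  have hφ' : deriv φ (ψ w) = (deriv ψ w)⁻¹ := eq_inv_of_mul_eq_one_left hchain
  set v : ℂ := χ w - ψ w with hv
  -- the curve t ↦ φ(ψ w + t v)
  have hcurve : HasDerivAt (fun t : ℝ => φ (ψ w + (t : ℂ) * v)) (deriv φ (ψ w) * v) 0 := by
    have h1 : HasDerivAt (fun t : ℝ => ψ w + (t : ℂ) * v) v 0 := by
      have : HasDerivAt (fun t : ℝ => (t : ℂ)) 1 0 := Complex.ofRealCLM.hasDerivAt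
      simpa using (this.mul_const v).const_add (ψ w)
    have h2 : HasDerivAt φ (deriv φ (ψ w)) (ψ w + ((0:ℝ) : ℂ) * v) := by simpa using hφat
    exact h2.comp_of_eq (0:ℝ) h1 rfl
  -- the squared norm
  have hsq : HasDerivAt (fun t : ℝ => ‖φ (ψ w + (t : ℂ) * v)‖ ^ 2)
      (2 * inner ℝ (φ (ψ w + ((0:ℝ) : ℂ) * v)) (deriv φ (ψ w) * v)) 0 := hcurve.norm_sq
  have hle : (2 * inner ℝ (φ (ψ w + ((0:ℝ) : ℂ) * v)) (deriv φ (ψ w) * v) : ℝ) ≤ 0 := by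
    by_contra hpos
    push Not at hpos
    have hev := (hasDerivAt_iff_tendsto_slope.1 hsq).eventually (lt_mem_nhds hpos)
    have hev' : ∀ᶠ t : ℝ in 𝓝[>] 0,
        0 < slope (fun t : ℝ => ‖φ (ψ w + (t : ℂ) * v)‖ ^ 2) 0 t :=
      hev.filter_mono (nhdsWithin_mono _ (fun x hx => ne_of_gt hx))
    have hev2 : ∀ᶠ t : ℝ in 𝓝[>] 0, t < 1 :=
      (gt_mem_nhds (show (0:ℝ) < 1 by norm_num)).filter_mono nhdsWithin_le_nhds
    have hev3 : ∀ᶠ t : ℝ in 𝓝[>] 0, 0 < t := self_mem_nhdsWithin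
    have hcc : ContinuousAt (fun t : ℝ => ψ w + (t : ℂ) * v) 0 := by fun_prop
    have hev4 : ∀ᶠ t : ℝ in 𝓝[>] 0, ψ w + (t : ℂ) * v ∉ K := by
      have hnb : Kᶜ ∈ 𝓝 ((fun t : ℝ => ψ w + (t : ℂ) * v) 0) := by
        simpa using hKc.isOpen_compl.mem_nhds (hψK w hw)
      have : ∀ᶠ t : ℝ in 𝓝 0, ψ w + (t : ℂ) * v ∉ K := hcc.eventually hnb
      exact this.filter_mono nhdsWithin_le_nhds
    obtain ⟨t, h1, h2, h3, h4⟩ := (hev'.and (hev2.and (hev3.and hev4))).exists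
    have hN := N_le hKc hKconv hKne hL hψd hφd hφ1 hφb hψb hφi hψi hχd hχb hχi h3.le h2.le hw
    have e1 : (1 - t) • ψ w + t • χ w = ψ w + (t : ℂ) * v := by
      rw [hv]; simp only [Complex.real_smul]; push_cast; ring
    rw [e1, N_of_notMem h4] at hN
    have h0 : ‖φ (ψ w + ((0:ℝ) : ℂ) * v)‖ = ‖w‖ := by simp [hφψ w hw]
    rw [slope_def_field] at h1
    have h5 : ‖φ (ψ w + (t : ℂ) * v)‖ ^ 2 ≤ ‖w‖ ^ 2 := by gcongr
    rw [sub_zero, h0] at h1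
    have h6 : (‖φ (ψ w + (t : ℂ) * v)‖ ^ 2 - ‖w‖ ^ 2) / t ≤ 0 :=
      div_nonpos_of_nonpos_of_nonneg (by linarith) h3.le
    linarith
  have h0 : φ (ψ w + ((0:ℝ) : ℂ) * v) = w := by simp [hφψ w hw]
  rw [h0, hφ'] at hle
  have hin : (inner ℝ w ((deriv ψ w)⁻¹ * v) : ℝ) ≤ 0 := by linarith
  rw [Complex.inner] at hin
  -- rewrite the goal
  have hn : 0 < Complex.normSq w := Complex.normSq_pos.2 hw0
  have e2 : (ψ w - χ w) / (w * deriv ψ w)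
      = -((((Complex.normSq w)⁻¹ : ℝ) : ℂ) * ((deriv ψ w)⁻¹ * v * (starRingEnd ℂ) w)) := by
    have hww : (Complex.normSq w : ℂ) = (starRingEnd ℂ) w * w := by
      rw [mul_comm, Complex.mul_conj]
    have hc0 : (starRingEnd ℂ) w ≠ 0 := by simpa using hw0
    rw [hv, Complex.ofReal_inv, hww]
    field_simp
    ring
  rw [e2, Complex.neg_re, Complex.re_ofReal_mul]
  have hin' : ((deriv ψ w)⁻¹ * v * (starRingEnd ℂ) w).re ≤ 0 := by
    convert hin using 2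
  have : (Complex.normSq w)⁻¹ * ((deriv ψ w)⁻¹ * v * (starRingEnd ℂ) w).re ≤ 0 :=
    mul_nonpos_of_nonneg_of_nonpos (by positivity) hin'
  linarith

end CRZLevel
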